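import Pool.Agent.H31.Snf2

open Pool.Agent.H31.Snf

universe u

theorem Pool.Agent.Results.MP_59a37c_gt.Main.result
    {X : Type u} [TopologicalSpace X] [T35Space X] [CompactlyCoherentSpace X] (hd : RegGdDiag X)
    (h : SnfCountable (An X 4) (TopologicalSpace.induced Subtype.val (topA X))) (n : ℕ) :
    SnfCountable (An X n) (TopologicalSpace.induced Subtype.val (topA X)) :=
  snfA4 hd h n
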